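import Pool.Agent.TH893.CL.Fam
import Pool.Agent.TH893.CL.Avg

/-!
# Products of `k` consecutive values of the Liouville function, for almost all lengths `k`

The black box is the averaged Chowla theorem of Matomaki, Radziwill and Tao in the form of
`Pool.Agent.TH823.MRS` (helper823), which rests on the starting files (`Pool.Agent.H376R2`, `Pool.Agent.H970R2`,
`Pool.Agent.H373R2`, `Pool.Agent.Helper602` and others).
From Mathlib: `ArithmeticFunction.cardFactors n`: the number of the prime factors of `n` with multiplicity;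
`Nat.primeCounting H`: the number of the primes up to `H`; `Polynomial ℤ`, `f.eval m`: polynomials and their values;
`Finset.Ioc Y X`: the integers `n` with `Y < n ≤ X`; `Finset.Icc 1 H`: the integers from `1` to `H`.
-/

set_option autoImplicit false

namespace Pool.Agent.Results.MP_a14ce1_nt.AlmostAllLengths

open Finset

/-- The product `λ(a n + b) λ(a (n + 1) + b) ... λ(a (n + k - 1) + b)` of the values of the Liouville function at
`k` consecutive terms of a progression. For `a = 1` and `b = 0` it is `λ(n) λ(n + 1) ... λ(n + k - 1)`. -/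
noncomputable def prodL (a b k n : ℕ) : ℝ := ∏ j ∈ range k, (-1 : ℝ) ^ ArithmeticFunction.cardFactors (a * (n + j) + b)

/-- The sum of the products over the interval `Y < n ≤ X`. For `a = 1`, `b = 0`, `Y = 0` it is `S_k(X)`. -/
noncomputable def sumL (a b k Y X : ℕ) : ℝ := ∑ n ∈ Ioc Y X, prodL a b k n

open Classical in
/-- The number of the elements of the finite set `I` with the property `E`. -/
noncomputable def num (I : Finset ℕ) (E : ℕ → Prop) : ℝ := ((I.filter E).card : ℝ)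

/-- The additive energy of order `p` of the family `s 1, ..., s x`: the number of the solutions of
`s (v 1) + ... + s (v p) = s (w 1) + ... + s (w p)` with all `v i`, `w i` in `{1, ..., x}`. -/
def energy (p x : ℕ) (s : ℕ → ℤ) : ℕ :=
  (((Fintype.piFinset fun _ : Fin p => Icc 1 x) ×ˢ (Fintype.piFinset fun _ : Fin p => Icc 1 x)).filter
    (fun q => ∑ i, s (q.1 i) = ∑ i, s (q.2 i))).card

/-- The length `k` is good for the weights `ξ`: on every interval `(Y, X]` with `X ≤ N` the sum of the products of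
`k` consecutive values with the weights `ξ` is at most half of the length of the interval, up to `ε N`. -/
def Half (a b N : ℕ) (ε : ℝ) (ξ : ℕ → ℂ) (k : ℕ) : Prop :=
  ∀ Y X : ℕ, Y ≤ X → X ≤ N → ‖∑ n ∈ Ioc Y X, ξ n * (prodL a b k n : ℂ)‖ ≤ ((X : ℝ) - Y) / 2 + ε * N

/-- Let `ε > 0` and `a ≥ 1` be fixed, let `N ≥ N₀` and `H₀ ≤ H ≤ N` (`H₀` and `N₀` depend on `ε` and `a`), and let
`b ≤ N`.

* For all the lengths `k ≤ H` with at most `ε H` exceptions, the sums `S_k` and `S_{k+1}` of the products of `k` and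
  of `k + 1` consecutive values of `λ` (along the progression `a n + b`) satisfy
  `|S_k(I)| + |S_{k+1}(I)| ≤ |I| / 2 + ε N` on all the intervals `I = (Y, X]` with `X ≤ N`. In the mean over the
  lengths `k ≤ H`, `|S_k(I)|` is at most `|I| / 4 + ε N`.
* Arbitrary weights `ξ : ℕ → ℂ`, bounded by `1`: for almost all the lengths `k`,
  `|∑_{n ∈ I} ξ(n) λ(a n + b) ... λ(a (n + k - 1) + b)| ≤ |I| / 2 + ε N` on all the intervals `I`. Here the lengths
  are taken from an arbitrary family `s 1, ..., s x` of positive integers up to `H` (members which are not positive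
  are ignored), whose additive energy of some fixed order `p` is at most `C` times the minimal possible size
  `x ^ (2 p) / H`; in particular
* from the positive values `f m`, `m ≤ x`, of a fixed polynomial `f` with integer coefficients, of degree `d ≥ 1`,
  with `H / K ≤ x ^ d ≤ K H`;
* or from the primes up to `H`. -/
theorem result (a : ℕ) (ha : 1 ≤ a) (ε : ℝ) (hε : 0 < ε) :
    (∃ H₀ N₀ : ℕ, ∀ N H : ℕ, N₀ ≤ N → H₀ ≤ H → H ≤ N → ∀ b : ℕ, b ≤ N →
      num (Icc 1 H) (fun k => ¬ ∀ Y X : ℕ, Y ≤ X → X ≤ N →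
        |sumL a b k Y X| + |sumL a b (k + 1) Y X| ≤ ((X : ℝ) - Y) / 2 + ε * N) ≤ ε * H ∧
      ∀ Y X : ℕ, Y ≤ X → X ≤ N → ∑ k ∈ Icc 1 H, |sumL a b k Y X| ≤ H * (((X : ℝ) - Y) / 4 + ε * N)) ∧
    (∀ (p : ℕ) (C : ℝ), ∃ H₀ N₀ : ℕ, ∀ N H : ℕ, N₀ ≤ N → H₀ ≤ H → H ≤ N → ∀ b : ℕ, b ≤ N →
      ∀ (x : ℕ) (s : ℕ → ℤ), (∀ m ∈ Icc 1 x, |s m| ≤ H) → (energy p x s : ℝ) * H ≤ C * (x : ℝ) ^ (2 * p) →
      ∀ ξ : ℕ → ℂ, (∀ n, ‖ξ n‖ ≤ 1) →
        num (Icc 1 x) (fun m => 0 < s m ∧ ¬ Half a b N ε ξ (s m).toNat) ≤ ε * x) ∧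
    (∀ f : Polynomial ℤ, 1 ≤ f.natDegree → ∀ K : ℕ, ∃ H₀ N₀ : ℕ, ∀ N H : ℕ, N₀ ≤ N → H₀ ≤ H → H ≤ N →
      ∀ b : ℕ, b ≤ N → ∀ x : ℕ, x ^ f.natDegree ≤ K * H → H ≤ K * x ^ f.natDegree →
      ∀ ξ : ℕ → ℂ, (∀ n, ‖ξ n‖ ≤ 1) →
        num (Icc 1 x) (fun m => 0 < f.eval (m : ℤ) ∧ ¬ Half a b N ε ξ (f.eval (m : ℤ)).toNat) ≤ ε * x) ∧
    (∃ H₀ N₀ : ℕ, ∀ N H : ℕ, N₀ ≤ N → H₀ ≤ H → H ≤ N → ∀ b : ℕ, b ≤ N →
      ∀ ξ : ℕ → ℂ, (∀ n, ‖ξ n‖ ≤ 1) →
        num ((Icc 1 H).filter Nat.Prime) (fun q => ¬ Half a b N ε ξ q) ≤ ε * Nat.primeCounting H) :=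
  ⟨Pool.Agent.TH893.CL.pair_avg ha hε, fun p C => Pool.Agent.TH893.CL.fam_gen ha hε p C,
    fun f hd K => Pool.Agent.TH893.CL.fam_pol ha hε f hd K, Pool.Agent.TH893.CL.fam_pri ha hε⟩

end Pool.Agent.Results.MP_a14ce1_nt.AlmostAllLengths
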