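import Pool.Agent.TH894.CV

/-!
# Products of Liouville values with one factor at a distance from a Hamming sphere

The exponential sum bounds for the Liouville function (Davenport's theorem with arbitrary powers of the
logarithm) and the bound for its Fourier transform over the frequencies with few changes of digits are from
the starting files (`Pool.Agent.H807R2.Dav`, `Pool.Agent.H373R2.T7`, `Pool.Agent.W93.LM`).
-/

set_option autoImplicit false

namespace Pool.Agent.Results.MP_a14ce1_nt.HammingSpheres

open Finset

/-- The Liouville function, with complex values. -/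
noncomputable def lam (n : ℕ) : ℂ := (-1) ^ ArithmeticFunction.cardFactors n

/-- The digit number `i` (counted from the right, beginning with `0`) of `n` in base `b`. -/
def digit (b i n : ℕ) : ℕ := n / b ^ i % b

/-- The number of digits of `n ≥ 1` in base `b`. -/
def len (b n : ℕ) : ℕ := Nat.log b n + 1

open Classical in
/-- The numbers `n` (with at most as many digits as `N`) whose digits in base `b` differ from the digits of
`N` at exactly `r` positions, where the last digit is the same as that of `N` and every digit which differs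
from the digit of `N` belongs to the set `F i` of the admissible new digits at its position `i`. (If all
digits are admissible, then this is the Hamming sphere of radius `r` around `N` in the set of the numbers
which have the same last digit as `N`.) -/
noncomputable def sphere (b N : ℕ) (F : ℕ → Finset ℕ) (r : ℕ) : Finset ℕ :=
  (range (b ^ len b N)).filter (fun n =>
    (∀ i ∈ range (len b N), digit b i n ≠ digit b i N → i ∈ Ico 1 (len b N) ∧ digit b i n ∈ F i) ∧
    ((range (len b N)).filter (fun i => digit b i n ≠ digit b i N)).card = r)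

open Classical in
/-- The number of the members of the sphere which do not have the property `E`. -/
noncomputable def exceptions (b N : ℕ) (F : ℕ → Finset ℕ) (r : ℕ) (E : ℕ → Prop) : ℕ :=
  ((sphere b N F r).filter (fun n => ¬ E n)).card

/-- For every base `b ≥ 2` there is a `c > 0`, and for every `ε > 0` and `L` there is a `C` such that for
every sufficiently large integer `N` and every radius `r` with `C log N / log log N ≤ r ≤ c log N` the
following holds. Let for every position `i` a set `F i` of `m ≥ 1` digits different from the digit of `N`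
be given (all such digits, for example). Let `g l : ℕ → ℂ`, `l < L`, be arbitrary functions bounded by `1`
(for example the products `λ (n) λ (n + 1) ⋯ λ (n + k - 1)` of consecutive values, for `k = 1, ..., L`, or
products of values of `λ` with other shifts, which may be as large as `N`). Then all but at most a
proportion `ε` of the numbers `h` which arise from `N` by changing exactly `r` of the digits in base `b`,
with the exception of the last one, such that the new digits belong to the sets `F i`, satisfy
`|∑ n ≤ X, g l n * λ (n + h)| ≤ ε N` for all `l < L` and all `X ≤ N`. -/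
theorem result (b : ℕ) (hb : 2 ≤ b) : ∃ c : ℝ, 0 < c ∧ ∀ ε : ℝ, 0 < ε → ∀ L : ℕ, ∃ (C : ℝ) (N₀ : ℕ), 0 < C ∧
    ∀ N : ℕ, N₀ ≤ N → ∀ r : ℕ, C * (Real.log N / Real.log (Real.log N)) ≤ r → (r : ℝ) ≤ c * Real.log N →
    ∀ (m : ℕ) (F : ℕ → Finset ℕ), 1 ≤ m → (∀ i, F i ⊆ range b ∧ digit b i N ∉ F i ∧ (F i).card = m) →
    ∀ g : Fin L → ℕ → ℂ, (∀ l n, ‖g l n‖ ≤ 1) →
      (exceptions b N F r (fun h => ∀ l, ∀ X : ℕ, X ≤ N →
        ‖∑ n ∈ Icc 1 X, g l n * lam (n + h)‖ ≤ ε * N) : ℝ) ≤ ε * (sphere b N F r).card := by
  classical
  obtain ⟨c, hc, H⟩ := Pool.Agent.TH894.CW.final_N b hb Pool.Agent.H373R2.T7.liR Pool.Agent.W93.LM.nice_liR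
  refine ⟨c, hc, fun ε hε L => ?_⟩
  obtain ⟨C, N₀, hC, h1⟩ := H ε hε L
  refine ⟨C, N₀, hC, fun N hN r hr hr' m F hm hF g hg => ?_⟩
  have hsph : sphere b N F r = Pool.Agent.TH894.SM.Sph b (Nat.log b N + 1) N (Ico 1 (Nat.log b N + 1)) F r := by
    unfold sphere Pool.Agent.TH894.SM.Sph
    ext n
    simp only [mem_filter]
    rfl
  have key : ∀ E : ℕ → Prop, (∀ s, ¬ E s → ∃ l, ∃ X : ℕ, 1 * X ≤ N ∧
      ε * N < ‖∑ n ∈ Icc 1 X, g l n * Pool.Agent.H373R2.T7.exI Pool.Agent.H373R2.T7.liR (((1 * n : ℕ) : ℤ) + s)‖) →
      (exceptions b N F r E : ℝ) ≤ ε * (sphere b N F r).card := by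
    intro E hE
    unfold exceptions
    rw [hsph]
    refine h1 N hN r hr hr' m F hm hF (fun _ => 1) g (fun _ => le_rfl) hg _ (filter_subset _ _) ?_
    intro s hs
    rw [mem_filter] at hs
    exact hE s hs.2
  apply key
  intro s hs
  push Not at hs
  obtain ⟨l, X, hX, hbig⟩ := hs
  refine ⟨l, X, by rw [one_mul]; exact hX, lt_of_lt_of_eq hbig ?_⟩
  congr 1
  apply sum_congr rfl
  intro n hn
  rw [mem_Icc] at hn
  congr 1
  have h6 : (((1 * n : ℕ) : ℤ) + ((s : ℕ) : ℤ)) = ((n + s : ℕ) : ℤ) := by push_cast; ring
  unfold Pool.Agent.H373R2.T7.exI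
  rw [h6, if_pos (by exact_mod_cast (by omega : 1 ≤ n + s)), Int.toNat_natCast]
  rfl

end Pool.Agent.Results.MP_a14ce1_nt.HammingSpheres
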