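import Pool.Agent.TH823.PS.Len2

/-!
# Products of `k` consecutive values of the Liouville function, for all but `N ^ (1 - δ)` lengths `k`, at most scales

From the starting files: the zero-free region inputs and the kernels (`Pool.Agent.W66`), the large sieve
(`Pool.Agent.Helper112`), the bounds on the minor arcs by Vaughan's identity (`Pool.Agent.W93`), the moments of
Weyl sums (`Pool.Agent.H373R2`), the Turan–Kubilius inequality (`Pool.Agent.Helper480`), Mertens' theorem.
From helper893: the pairing of neighbouring lengths (`Pool.Agent.TH893.CL`).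
From Mathlib: `ArithmeticFunction.cardFactors n`: the number of the prime factors of `n` with multiplicity;
`Polynomial ℤ`, `f.eval m`: polynomials and their values; `Finset.Ioc Y X`: the integers `n` with `Y < n ≤ X`;
`Finset.Icc 1 H`: the integers from `1` to `H`.
-/

set_option autoImplicit false

namespace Pool.Agent.Results.MP_a14ce1_nt.PowerSavingLengths

open Finset

/-- The product `λ(a n + b) λ(a (n + 1) + b) ... λ(a (n + k - 1) + b)` of the values of the Liouville function at
`k` consecutive terms of a progression. For `a = 1` and `b = 0` it is `λ(n) λ(n + 1) ... λ(n + k - 1)`. -/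
noncomputable def prodL (a b k n : ℕ) : ℝ := ∏ j ∈ range k, (-1 : ℝ) ^ ArithmeticFunction.cardFactors (a * (n + j) + b)

/-- The sum of the products over the interval `Y < n ≤ X`. For `a = 1`, `b = 0`, `Y = 0` it is `S_k(X)`. -/
noncomputable def sumL (a b k Y X : ℕ) : ℝ := ∑ n ∈ Ioc Y X, prodL a b k n

open Classical in
/-- The number of the elements of the finite set `I` with the property `E`. -/
noncomputable def num (I : Finset ℕ) (E : ℕ → Prop) : ℝ := ((I.filter E).card : ℝ)

/-- The additive energy of order `p` of the family `s 1, ..., s x`: the number of the solutions of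
`s (v 1) + ... + s (v p) = s (w 1) + ... + s (w p)` with all `v i`, `w i` in `{1, ..., x}`. -/
def energy (p x : ℕ) (s : ℕ → ℤ) : ℕ :=
  (((Fintype.piFinset fun _ : Fin p => Icc 1 x) ×ˢ (Fintype.piFinset fun _ : Fin p => Icc 1 x)).filter
    (fun q => ∑ i, s (q.1 i) = ∑ i, s (q.2 i))).card

open Classical in
/-- The property `P` holds at most scales: the set of the positive integers `N` with the property `P` has upper
logarithmic density at least `1 - ε`. Precisely, for arbitrarily large `R` the sum of `1 / N` over the `N ≤ R`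
without the property is at most `ε log R`. -/
def MostScales (ε : ℝ) (P : ℕ → Prop) : Prop :=
  ∀ R₀ : ℕ, ∃ R : ℕ, R₀ ≤ R ∧ ∑ N ∈ (Icc 1 R).filter (fun N => ¬ P N), (1 : ℝ) / N ≤ ε * Real.log R

/-- The length `k` is good for the weights `ξ`: on every interval `(Y, X]` with `X ≤ N` the sum of the products of
`k` consecutive values with the weights `ξ` is at most half of the length of the interval, up to `ε N`. -/
def Half (a b N : ℕ) (ε : ℝ) (ξ : ℕ → ℂ) (k : ℕ) : Prop :=
  ∀ Y X : ℕ, Y ≤ X → X ≤ N → ‖∑ n ∈ Ioc Y X, ξ n * (prodL a b k n : ℂ)‖ ≤ ((X : ℝ) - Y) / 2 + ε * N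

/-- Let `ε > 0` and `a ≥ 1` be fixed. There is a `δ > 0`, depending on the fixed data only, such that the following
holds at most scales `N`, that is on a set of `N` of upper logarithmic density at least `1 - ε`, for all the
progressions `a n + b`, `b ≤ N` (or `b ≤ B N`).

* For all but `N ^ (1 - δ)` of the lengths `k ≤ N`, the sums `S_k` and `S_{k+1}` of the products of `k` and of
  `k + 1` consecutive values of `λ` satisfy `|S_k(I)| + |S_{k+1}(I)| ≤ |I| / 2 + ε N` on all the intervals
  `I = (Y, X]` with `X ≤ N`.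
* Arbitrary weights `ξ : ℕ → ℂ`, bounded by `1`: for all but `x / N ^ δ` of the positive members `k` of an arbitrary
  family `s 1, ..., s x` of integers in `[-B N, B N]`, whose additive energy of some fixed order `p` is at most
  `N ^ δ` times the minimal possible size `x ^ (2 p) / N`,
  `|∑_{n ∈ I} ξ(n) λ(a n + b) ... λ(a (n + k - 1) + b)| ≤ |I| / 2 + ε N` on all the intervals `I`.
* The same for all but `x / N ^ δ` of the positive values `k = f m`, `m ≤ x`, of a fixed polynomial `f` with integer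
  coefficients, of degree `d ≥ 1`, with `N ^ (1 - δ) ≤ x ^ d ≤ B N`. -/
theorem result (a : ℕ) (ha : 1 ≤ a) (ε : ℝ) (hε : 0 < ε) :
    (∃ δ : ℝ, 0 < δ ∧ MostScales ε (fun N => ∀ b : ℕ, b ≤ N →
      num (Icc 1 N) (fun k => ¬ ∀ Y X : ℕ, Y ≤ X → X ≤ N →
        |sumL a b k Y X| + |sumL a b (k + 1) Y X| ≤ ((X : ℝ) - Y) / 2 + ε * N) ≤ (N : ℝ) ^ (1 - δ))) ∧
    (∀ B p : ℕ, 1 ≤ p → ∃ δ : ℝ, 0 < δ ∧ MostScales ε (fun N => ∀ b : ℕ, b ≤ B * N →
      ∀ (x : ℕ) (s : ℕ → ℤ), (∀ m ∈ Icc 1 x, |s m| ≤ B * N) →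
      (energy p x s : ℝ) * N ≤ (N : ℝ) ^ δ * (x : ℝ) ^ (2 * p) → ∀ ξ : ℕ → ℂ, (∀ n, ‖ξ n‖ ≤ 1) →
        num (Icc 1 x) (fun m => 0 < s m ∧ ¬ Half a b N ε ξ (s m).toNat) ≤ x * (N : ℝ) ^ (-δ))) ∧
    (∀ (B : ℕ) (f : Polynomial ℤ), 1 ≤ f.natDegree → ∃ δ : ℝ, 0 < δ ∧ MostScales ε (fun N => ∀ b : ℕ, b ≤ B * N →
      ∀ x : ℕ, x ^ f.natDegree ≤ B * N → (N : ℝ) ^ (1 - δ) ≤ (x : ℝ) ^ f.natDegree →
      ∀ ξ : ℕ → ℂ, (∀ n, ‖ξ n‖ ≤ 1) →
        num (Icc 1 x) (fun m => 0 < f.eval (m : ℤ) ∧ ¬ Half a b N ε ξ (f.eval (m : ℤ)).toNat) ≤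
          x * (N : ℝ) ^ (-δ))) :=
  ⟨Pool.Agent.TH823.PS.Len.pairs ha hε, fun B p hp => Pool.Agent.TH823.PS.Len.families ha hε B p hp,
    fun B f hf => Pool.Agent.TH823.PS.Len.polys ha hε B f hf⟩

end Pool.Agent.Results.MP_a14ce1_nt.PowerSavingLengths
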