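import Pool.Agent.TH893.FC.Fin

/-!
# Products of the Liouville function over unions of blocks of consecutive integers

The black box is the averaged Chowla theorem of Matomaki, Radziwill and Tao in the form of
`Pool.Agent.TH823.MRS` (helper823), which rests on the starting files (`Pool.Agent.H376R2`, `Pool.Agent.H970R2`,
`Pool.Agent.H373R2`, `Pool.Agent.Helper602` and others).
From Mathlib: `ArithmeticFunction.cardFactors n`: the number of the prime factors of `n` with multiplicity;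
`Finset.Ioc Y X`: the integers `n` with `Y < n ≤ X`; `Finset.Ico u v`: the integers `j` with `u ≤ j < v`;
`Finset.Icc 1 H`: the integers from `1` to `H`; `Fintype.piFinset fun _ : Fin r => s`: the families of `r` elements
of the finite set `s`.
-/

set_option autoImplicit false

namespace Pool.Agent.Results.MP_a14ce1_nt.UnionsOfBlocks

open Finset

/-- The Liouville function. -/
noncomputable def lam (n : ℕ) : ℝ := (-1 : ℝ) ^ ArithmeticFunction.cardFactors n

/-- The product of the values of the Liouville function over the block between `n + u` and `n + v`, along the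
progression `a n + b`. For `a = 1`, `b = 0` and `u ≤ v` it is `λ(n + u) λ(n + u + 1) ... λ(n + v - 1)`. -/
noncomputable def block (a b u v n : ℕ) : ℝ := ∏ j ∈ Ico (min u v) (max u v), lam (a * (n + j) + b)

/-- The choices of the ends of `r` blocks: pairs of integers between `1` and `H`. -/
def ends (r H : ℕ) : Finset (Fin r → ℕ × ℕ) := Fintype.piFinset fun _ : Fin r => Icc 1 H ×ˢ Icc 1 H

/-- The sum over the interval `(Y, X]`, with the weights `ξ`, of the products over the `r` blocks with the ends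
`M i + (k i).1` and `M' i + (k i).2`. -/
noncomputable def S (a b : ℕ) (ξ : ℕ → ℂ) {r : ℕ} (M M' : Fin r → ℕ) (k : Fin r → ℕ × ℕ) (Y X : ℕ) : ℂ :=
  ∑ n ∈ Ioc Y X, ξ n * ((∏ i, block a b (M i + (k i).1) (M' i + (k i).2) n : ℝ) : ℂ)

open Classical in
/-- The number of the elements of the finite set `I` with the property `E`. -/
noncomputable def num {α : Type} (I : Finset α) (E : α → Prop) : ℝ := ((I.filter E).card : ℝ)

/-- Let `a ≥ 1` and `r` be fixed, let `N ≥ N₀` and `H₀ ≤ H ≤ N` (so `H` may be bounded), let `b ≤ N`, and let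
`2 r` windows `(M i, M i + H]`, `(M' i, M' i + H]` for the ends of `r` blocks be given, where `M i, M' i ≤ N` are
arbitrary. Let `ξ : ℕ → ℂ` be arbitrary weights bounded by `1`.

* The mean square, over all the `H ^ (2 r)` choices of the ends in the windows, of the sum of `ξ(n)` times the
  product of the Liouville function over the `r` blocks is at most `|I| ^ 2 / 4 ^ r + ε N ^ 2`, on every interval
  `I = (Y, X]` with `X ≤ N`.
* If `4 ^ r ≥ 20000 / δ ^ 5` then for all the choices of the ends with at most `δ H ^ (2 r)` exceptions the sum is at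
  most `δ N` on all the intervals `(Y, X]` with `X ≤ N` simultaneously.
* The block products are the products of two values of `λ(n!)`, so that these sums are the correlations of order
  `2 r` of the sequence `λ(n!)`; for `r = 1` and `ξ = 1` they are the sums `S_k`. -/
theorem result (a : ℕ) (ha : 1 ≤ a) :
    (∀ (r : ℕ) (ε : ℝ), 0 < ε → ∃ H₀ N₀ : ℕ, ∀ N H : ℕ, N₀ ≤ N → H₀ ≤ H → H ≤ N →
      ∀ b : ℕ, b ≤ N → ∀ M M' : Fin r → ℕ, (∀ i, M i ≤ N) → (∀ i, M' i ≤ N) →
      ∀ ξ : ℕ → ℂ, (∀ n, ‖ξ n‖ ≤ 1) → ∀ Y X : ℕ, Y ≤ X → X ≤ N →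
        ∑ k ∈ ends r H, ‖S a b ξ M M' k Y X‖ ^ 2 ≤
          (H : ℝ) ^ (2 * r) * (((X : ℝ) - Y) ^ 2 / 4 ^ r + ε * N ^ 2)) ∧
    (∀ δ : ℝ, 0 < δ → δ ≤ 1 → ∀ r : ℕ, 20000 / δ ^ 5 ≤ 4 ^ r → ∃ H₀ N₀ : ℕ, ∀ N H : ℕ, N₀ ≤ N → H₀ ≤ H → H ≤ N →
      ∀ b : ℕ, b ≤ N → ∀ M M' : Fin r → ℕ, (∀ i, M i ≤ N) → (∀ i, M' i ≤ N) →
      ∀ ξ : ℕ → ℂ, (∀ n, ‖ξ n‖ ≤ 1) →
        num (ends r H) (fun k => ¬ ∀ Y X : ℕ, Y ≤ X → X ≤ N → ‖S a b ξ M M' k Y X‖ ≤ δ * N) ≤
          δ * (H : ℝ) ^ (2 * r)) ∧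
    (∀ u v n : ℕ, 1 ≤ n → block 1 0 u v n = lam (n + u - 1).factorial * lam (n + v - 1).factorial) := by
  refine ⟨?_, ?_, ?_⟩
  · intro r ε hε
    obtain ⟨H₀, N₀, h⟩ := Pool.Agent.TH893.FC.mean2 ha r hε
    refine ⟨H₀, N₀, fun N H hN hH hHN b hb M M' hM hM' ξ hξ Y X hYX hX => ?_⟩
    have h1 := h N H hN hH hHN b hb M M' hM hM' ξ hξ Y X hYX hX
    simp only [Pool.Agent.TH893.FC.T_blk] at h1
    have h2 : (1 / 4 : ℝ) ^ r * ((X : ℝ) - Y) ^ 2 = ((X : ℝ) - Y) ^ 2 / 4 ^ r := by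
      rw [one_div, inv_pow]
      field_simp
    rw [h2] at h1
    exact h1
  · intro δ hδ hδ1 r hr
    have hr' : 20000 ≤ 4 ^ r * δ ^ 5 := by rwa [div_le_iff₀ (by positivity)] at hr
    obtain ⟨H₀, N₀, h⟩ := Pool.Agent.TH893.FC.unif2 ha hδ hδ1 hr'
    refine ⟨H₀, N₀, fun N H hN hH hHN b hb M M' hM hM' ξ hξ => ?_⟩
    refine le_trans (le_of_eq ?_) (h N H hN hH hHN b hb M M' hM hM' ξ hξ)
    unfold num ends
    congr 2
    ext k
    have hT : ∀ Y X : ℕ, S a b ξ M M' k Y X = Pool.Agent.TH893.FC.T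
        (fun i => Pool.Agent.TH893.FC.G2 (Pool.Agent.TH893.CL.lr a b) (M i) (M' i)) ξ k Y X :=
      fun Y X => (Pool.Agent.TH893.FC.T_blk a b M M' ξ k Y X).symm
    simp only [mem_filter, hT]
  · intro u v n hn
    have h1 := Pool.Agent.TH893.FC.blk_eq 1 0 u v n
    have h2 := Pool.Agent.TH893.FC.fac_eq (n + u - 1)
    have h3 := Pool.Agent.TH893.FC.fac_eq (n + v - 1)
    rw [show n + u - 1 + 1 = n + u by omega] at h2
    rw [show n + v - 1 + 1 = n + v by omega] at h3
    rw [h2, h3] at h1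
    exact h1

end Pool.Agent.Results.MP_a14ce1_nt.UnionsOfBlocks
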